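import Pool.Agent.MP_d32a63_an.H58.Spec

/-! The limit of the sections and the limit argument. -/

open Set Filter Topology Metric
open Complex (I)
open Pool.Agent.MP_d32a63_an.H95 (Core Sec W0 Flat)
open Pool.Agent.MP_d32a63_an.H58

namespace Pool.Agent.MP_d32a63_an.H16

instance : UF.NeBot := (hyperfilter ℕ).neBot'

section
variable {W : Set ℂ} {G : ℕ → ℕ → ℂ → ℂ} (hG : ∀ J, Sec 1 W (G J))
include hG

lemma pw {z : ℂ} (hz : z ∈ closure W) (h3 : ‖z‖ ≤ 3) :
    Tendsto (fun J => G J 0 z) UF (𝓝 (gl G z)) ∧ ‖gl G z‖ ≤ 1 := by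
  obtain ⟨u, hu, h⟩ := (isCompact_closedBall (0 : ℂ) 1).ultrafilter_le_nhds'
    ((hyperfilter ℕ).map fun J => G J 0 z) (Ultrafilter.mem_map.2 (univ_mem' fun J =>
      mem_closedBall_zero_iff.2 ((hG J).bdd 0 zero_le_one z hz h3)))
  have h' : Tendsto (fun J => G J 0 z) UF (𝓝 u) := h
  rw [gl, h'.limUnder_eq]
  exact ⟨h', mem_closedBall_zero_iff.1 hu⟩

lemma loc (hU : UL) {A : Set ℂ} (hA : Convex ℝ A) (h : A ⊆ W ∩ ball 0 3) :
    TendstoUniformlyOn (fun J => G J 0) (gl G) UF (closure A) ∧ ContinuousOn (gl G) (closure A) := by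
  have h1 : closure A ⊆ closure W := closure_mono fun _ hx => (h hx).1
  have h2 : closure A ⊆ closedBall 0 3 :=
    closure_minimal (fun _ hx => ball_subset_closedBall (h hx).2) isClosed_closedBall
  obtain ⟨a, b⟩ := hU UF (fun J => G J 0) (gl G) (closure A) 1 (fun _ => 0) inferInstance
    (isBounded_closedBall.subset h2) tendsto_const_nhds
    (fun x hx => (pw hG (h1 hx) (mem_closedBall_zero_iff.1 (h2 hx))).1)
    (Eventually.of_forall fun J x hx y hy => by
      have := ((hA.lipschitzOnWith_of_nnnorm_hasDerivWithin_le (C := 1)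
        (fun x hx => ((hG J).der 0 one_pos x (h hx).1).hasDerivWithinAt) fun x hx =>
        (hG J).bdd 1 le_rfl x (subset_closure (h hx).1) (mem_ball_zero_iff.1 (h hx).2).le).closure
        (((hG J).cont 0 zero_le_one).mono h1)).norm_sub_le hx hy
      simpa using this)
  exact ⟨a, (LipschitzOnWith.of_dist_le_mul (K := 1) fun x hx y hy => by
    simpa [dist_eq_norm] using b x hx y hy).continuousOn⟩

end

lemma flat_convex {W : Set ℂ} {z : ℂ} (h : Flat W z) :
    ∃ r > 0, r ≤ 1 ∧ Convex ℝ (ball z r ∩ W) := by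
  obtain ⟨r, hr, c, s, -, h⟩ := h
  refine ⟨min r 1, by positivity, min_le_right _ _, ?_⟩
  have : ball z (min r 1) ∩ W =
      ball z (min r 1) ∩ {x | s * (z.im - c * z.re) < s * (x.im - c * x.re)} := by
    ext x
    refine and_congr_right fun hx => (h x (ball_subset_ball (min_le_left _ _) hx)).trans ?_
    simp only [Complex.sub_im, Complex.sub_re, mem_ofPred_eq]
    constructor <;> intro a <;> linarith
  rw [this]
  refine (convex_ball _ _).inter (convex_halfSpace_gt ⟨fun x y => ?_, fun a x => ?_⟩ _)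
  · simp only [Complex.add_im, Complex.add_re]; ring
  · simp only [Complex.smul_im, Complex.smul_re, smul_eq_mul]; ring

theorem limg : R_LIMG := by
  intro hB hU W G hW h0 hG
  have ho : IsOpen (W ∩ ball 0 3) := hW.inter isOpen_ball
  have hl : TendstoLocallyUniformlyOn (fun J => G J 0) (gl G) UF (W ∩ ball 0 3) :=
    tendstoLocallyUniformlyOn_of_forall_exists_nhds fun x hx => by
      obtain ⟨r, hr, h⟩ := Metric.isOpen_iff.1 ho x hx
      exact ⟨_, mem_nhdsWithin_of_mem_nhds (ball_mem_nhds x hr),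
        (loc hG hU (convex_ball x r) h).1.mono subset_closure⟩
  have hd : ∀ J, DifferentiableOn ℂ (G J 0) (W ∩ ball 0 3) := fun J x hx =>
    ((hG J).der 0 one_pos x hx.1).differentiableAt.differentiableWithinAt
  have hD := hl.differentiableOn (Eventually.of_forall hd) ho
  refine ⟨hD, fun z hz h3 => (pw hG hz h3).2, fun z hz hn hf => ?_, fun z hz h2 => ?_⟩
  · obtain ⟨r, hr, h1, hc⟩ := flat_convex hf
    obtain ⟨a, b⟩ := loc hG hU hc fun x hx => ⟨hx.2, by
      have := (hB.inn W z h0 hn).2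
      have e := norm_le_norm_add_norm_sub' x z
      have := mem_ball_iff_norm.1 hx.1
      rw [mem_ball_zero_iff]; linarith⟩
    have m : closure (ball z r ∩ W) ∈ 𝓝[closure W] z :=
      mem_of_superset (inter_mem (mem_nhdsWithin_of_mem_nhds (ball_mem_nhds z hr))
        self_mem_nhdsWithin) isOpen_ball.inter_closure
    have c := b z (isOpen_ball.inter_closure ⟨mem_ball_self hr, hz⟩)
    exact ⟨c.mono_of_mem_nhdsWithin m, fun y hy ht => a.tendsto_comp c
      ((tendsto_nhdsWithin_iff.2 ⟨ht, hy⟩).mono_right (nhdsWithin_le_of_mem m))⟩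
  · have hs : sphere (0 : ℂ) (5 / 2) ⊆ W ∩ ball 0 3 := fun x hx => by
      rw [mem_sphere_zero_iff_norm] at hx
      refine ⟨by_contra fun hn => ?_, by rw [mem_ball_zero_iff]; linarith⟩
      linarith [(hB.inn W x h0 hn).2]
    have hz' : ∀ x ∈ sphere (0 : ℂ) (5 / 2), 1 / 2 ≤ ‖x - z‖ := fun x hx => by
      rw [mem_sphere_zero_iff_norm] at hx
      linarith [norm_sub_norm_le x z]
    have ci : ∀ f : ℂ → ℂ, DifferentiableOn ℂ f (W ∩ ball 0 3) →
        CircleIntegrable (fun x => (x - z)⁻¹ * f x) 0 (5 / 2) := fun f hf =>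
      ContinuousOn.circleIntegrable (by norm_num) (((continuousOn_id.sub continuousOn_const).inv₀
        fun x hx => norm_pos_iff.1 (lt_of_lt_of_le (by norm_num) (hz' x hx))).mul
        (hf.continuousOn.mono hs))
    refine (pw hG (subset_closure hz) (by linarith)).1.sub (Metric.tendsto_nhds.2 fun ε hε => ?_)
    filter_upwards [Metric.tendstoUniformlyOn_iff.1 ((tendstoLocallyUniformlyOn_iff_forall_isCompact
      ho).1 hl _ hs (isCompact_sphere _ _)) (ε / 6) (by positivity)] with J hJ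
    rw [dist_eq_norm, cau, cau, ← mul_sub, ← circleIntegral.integral_sub (ci _ (hd J)) (ci _ hD)]
    refine (circleIntegral.norm_two_pi_i_inv_smul_integral_le_of_norm_le_const (C := 2 * (ε / 6))
      (by norm_num) fun x hx => ?_).trans_lt (by linarith)
    rw [← mul_sub, norm_mul, norm_inv, norm_sub_rev (G J 0 x), ← dist_eq_norm (gl G x)]
    refine mul_le_mul ?_ (hJ x hx).le dist_nonneg zero_le_two
    rw [inv_le_comm₀ (lt_of_lt_of_le (by norm_num) (hz' x hx)) two_pos]
    simpa using hz' x hx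

theorem lim : R_LIM := by
  intro hA hGl hBl hC hGlue n s Γ hΓ τ K βf e hτ hK hβ he z0 hz0 h2 η hη
  by_contra hn
  push Not at hn
  choose d hd G ℓ Φ μ c hS hc hlt using fun J : ℕ => hn (1 / ((J : ℝ) + 1)) (by positivity)
  have q : Sq s Γ τ K βf e d ℓ G Φ μ c := ⟨hΓ, hτ, hK, hβ, squeeze_zero (fun J => (hc J).d0.le) hd
    tendsto_one_div_add_atTop_nhds_zero_nat, hS, hc⟩
  have a := hA n s Γ τ K βf e d ℓ G Φ μ c q
  have g := hGl s.W G s.isOpen s.base hS
  obtain ⟨c1, c2⟩ := hC (closure s.W)ᶜ (ball e (1 / 10)) (fun z => s.F 0 z + τ * actr) (τ / 50)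
    (phi ℓ Φ) isClosed_closure.isOpen_compl s.conn isOpen_ball he
    ((s.cont 0).add continuous_const) (by positivity) a.hw a.hz a.fl
  have := hGlue s.W (s.X ∪ (Seg.p '' Γ ∪ Seg.v '' Γ)) (gl G) _ K s.isOpen s.base
    (s.fin.union ((hΓ.fin.image _).union (hΓ.fin.image _))) g.dif c2
    (fun z hz h3 => (g.bd z hz h3).trans hK)
    (fun z hz => a.bd z hz _ (mem_ball_self (by positivity)))
    (fun z hz hW hP => by
      have f := s.flat z hz hW fun h => hP (.inl h)
      exact ⟨f, (g.side z hz hW f).1, hBl n s Γ τ K βf e d ℓ G Φ μ c _ q a g c1 z hz hW f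
        fun γ hγ => ⟨fun h => hP (.inr (.inl ⟨γ, hγ, h.symm⟩)),
          fun h => hP (.inr (.inr ⟨γ, hγ, h.symm⟩))⟩⟩) z0 hz0 h2
  have t := (g.pt z0 hz0 h2).norm
  rw [← this, sub_self, norm_zero] at t
  exact hη.not_ge (ge_of_tendsto' t fun J => (hlt J).le)

end Pool.Agent.MP_d32a63_an.H16
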